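import Mathlib

set_option autoImplicit false

namespace Pool.Agent.Results.MP_92077f_co.Drop

def lo (c0 c1 c2 c3 c4 b : ℕ) : ℕ :=
  (4 - (c2 + c3 + c4 + b)) + (4 - (c1 + c3 + c4 + b)) + (4 - (c1 + c2 + c4 + b)) + (4 - (c1 + c2 + c3 + b)) + (4 - (c0 + c3 + c4 + b)) + (4 - (c0 + c2 + c4 + b)) + (4 - (c0 + c2 + c3 + b)) + (4 - (c0 + c1 + c4 + b)) + (4 - (c0 + c1 + c3 + b)) + (4 - (c0 + c1 + c2 + b))

def up (c0 c1 c2 c3 c4 t : ℕ) : ℕ :=
  (4 - (c0 + c1 + t)) + (4 - (c0 + c2 + t)) + (4 - (c0 + c3 + t)) + (4 - (c0 + c4 + t)) + (4 - (c1 + c2 + t)) + (4 - (c1 + c3 + t)) + (4 - (c1 + c4 + t)) + (4 - (c2 + c3 + t)) + (4 - (c2 + c4 + t)) + (4 - (c3 + c4 + t))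

def chk : Bool :=
  (List.range 5).all fun c0 => (List.range 5).all fun c1 => (List.range 5).all fun c2 =>
  (List.range 5).all fun c3 => (List.range 5).all fun c4 => (List.range 5).all fun b0 =>
  (List.range 5).all fun b1 => Nat.ble (up c0 c1 c2 c3 c4 (b0 + b1 + lo c0 c1 c2 c3 c4 b0) +
      up c0 c1 c2 c3 c4 (b0 + b1 + lo c0 c1 c2 c3 c4 b1)) 16

theorem chk_true : chk = true := by decide +kernel

theorem key : ∀ c0 < 5, ∀ c1 < 5, ∀ c2 < 5, ∀ c3 < 5, ∀ c4 < 5, ∀ b0 < 5, ∀ b1 < 5,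
    up c0 c1 c2 c3 c4 (b0 + b1 + lo c0 c1 c2 c3 c4 b0) +
      up c0 c1 c2 c3 c4 (b0 + b1 + lo c0 c1 c2 c3 c4 b1) ≤ 16 := by
  have h := chk_true
  simp only [chk, List.all_eq_true, List.mem_range, Nat.ble_eq] at h
  exact h

open SimpleGraph Finset Classical

/-- the weight of the closed neighbourhood of `v` -/
noncomputable def cl {V : Type} [Fintype V] (G : SimpleGraph V) (g : V → ℕ) (v : V) : ℕ :=
  g v + ∑ u ∈ G.neighborFinset v, g u

/-- minimal `k`-dominating functions -/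
def IsMinDom {V : Type} [Fintype V] (G : SimpleGraph V) (k : ℕ) (g : V → ℕ) : Prop :=
  (∀ v, g v ≤ k) ∧ (∀ v, k ≤ cl G g v) ∧ ∀ v, 0 < g v → ∃ u, (u = v ∨ G.Adj v u) ∧ cl G g u = k

/-- the upper `k`-domination number -/
noncomputable def upperDom {V : Type} [Fintype V] (G : SimpleGraph V) (k : ℕ) : ℕ :=
  sSup {n | ∃ g : V → ℕ, IsMinDom G k g ∧ ∑ v, g v = n}

def inP : Fin 10 → Fin 5 → Bool :=
  ![![true, true, false, false, false],
    ![true, false, true, false, false],
    ![true, false, false, true, false],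
    ![true, false, false, false, true],
    ![false, true, true, false, false],
    ![false, true, false, true, false],
    ![false, true, false, false, true],
    ![false, false, true, true, false],
    ![false, false, true, false, true],
    ![false, false, false, true, true]]

abbrev I : Type := Bool × Fin 10 × Fin 30

abbrev W : Type := (Option (Fin 5) ⊕ I) ⊕ (I ⊕ (Bool × Fin 10))

def crs : Option (Fin 5) ⊕ I → I ⊕ (Bool × Fin 10) → Prop
  | Sum.inl none, _ => False
  | Sum.inl (some a), Sum.inl j => inP j.2.1 a = true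
  | Sum.inl (some a), Sum.inr w => inP w.2 a = false
  | Sum.inr i, Sum.inl j => i = j
  | Sum.inr _, Sum.inr _ => False

def ins : I ⊕ (Bool × Fin 10) → I ⊕ (Bool × Fin 10) → Prop
  | Sum.inl _, Sum.inl _ => True
  | Sum.inl j, Sum.inr w => w.1 = j.1
  | Sum.inr w, Sum.inl j => j.1 = w.1
  | Sum.inr w, Sum.inr w' => w' = w

def nb : W → W → Prop
  | Sum.inl _, Sum.inl _ => True
  | Sum.inl x, Sum.inr y => crs x y
  | Sum.inr y, Sum.inl x => crs x y
  | Sum.inr y, Sum.inr y' => ins y y'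

theorem nb_symm (u v : W) (h : nb u v) : nb v u := by
  rcases u with x | j | w <;> rcases v with x' | j' | w' <;> first | exact h | exact Eq.symm h

theorem nb_refl (u : W) : nb u u := by
  rcases u with x | j | w <;> trivial

def gr : SimpleGraph W where
  Adj u v := u ≠ v ∧ nb u v
  symm := ⟨fun u v h => ⟨h.1.symm, nb_symm u v h.2⟩⟩
  loopless := ⟨fun _ h => h.1 rfl⟩

theorem cl_eq (g : W → ℕ) (v : W) : cl gr g v = ∑ u, if nb v u then g u else 0 := by
  unfold cl
  rw [← sum_filter, ← add_sum_erase _ _ (mem_filter.2 ⟨mem_univ v, nb_refl v⟩)]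
  congr 2
  ext u
  simp only [mem_neighborFinset, mem_erase, mem_filter, mem_univ, true_and]
  exact and_congr_left' ne_comm

theorem sum_pick {α : Type} [Fintype α] (f : α → ℕ) (j : α) {d : ∀ x, Decidable (x = j)} :
    ∑ x, (@ite _ (x = j) (d x) (f x) 0) = f j := by
  rw [sum_eq_single j (fun b _ h => if_neg h) (by simp), if_pos rfl]

section
variable (g : W → ℕ)

def cp (p : Fin 10) : ℕ := ∑ a, if inP p a = true then g (Sum.inl (Sum.inl (some a))) else 0
def cc (p : Fin 10) : ℕ := ∑ a, if inP p a = false then g (Sum.inl (Sum.inl (some a))) else 0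
def bb (i : Bool) : ℕ := ∑ q : Fin 10 × Fin 30, g (Sum.inr (Sum.inl (i, q)))
def ss (i : Bool) : ℕ := ∑ p : Fin 10, g (Sum.inr (Sum.inr (i, p)))
def tot : ℕ := ∑ x, g (Sum.inl x)

theorem cl_l (j : I) : cl gr g (Sum.inr (Sum.inl j)) =
    cp g j.2.1 + g (Sum.inl (Sum.inr j)) + (bb g true + bb g false + ss g j.1) := by
  rw [cl_eq, Fintype.sum_sum_type, Fintype.sum_sum_type, Fintype.sum_sum_type, Fintype.sum_option,
    if_neg (show ¬ nb (Sum.inr (Sum.inl j)) (Sum.inl (Sum.inl none)) from fun h => h), zero_add]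
  refine congrArg₂ _ (congrArg₂ _ ?_ (sum_pick _ j)) (congrArg₂ _ ?_ ?_)
  · exact sum_congr rfl (fun a _ => if_congr Iff.rfl rfl rfl)
  · refine (sum_congr rfl (fun a _ => if_pos trivial)).trans ?_
    rw [Fintype.sum_prod_type, Fintype.sum_bool]
    rfl
  · rw [Fintype.sum_prod_type, sum_comm]
    exact sum_congr rfl (fun p _ => sum_pick (fun i => g (Sum.inr (Sum.inr (i, p)))) j.1)

theorem cl_w (w : Bool × Fin 10) : cl gr g (Sum.inr (Sum.inr w)) =
    cc g w.2 + (bb g w.1 + g (Sum.inr (Sum.inr w))) := by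
  rw [cl_eq, Fintype.sum_sum_type, Fintype.sum_sum_type, Fintype.sum_sum_type, Fintype.sum_option,
    if_neg (show ¬ nb (Sum.inr (Sum.inr w)) (Sum.inl (Sum.inl none)) from fun h => h), zero_add,
    ← add_zero (cc g w.2)]
  refine congrArg₂ _ (congrArg₂ _ ?_ (sum_eq_zero (fun a _ => if_neg (fun h => h))))
    (congrArg₂ _ ?_ (sum_pick _ w))
  · exact sum_congr rfl (fun a _ => if_congr Iff.rfl rfl rfl)
  · rw [Fintype.sum_prod_type, sum_comm]
    exact sum_congr rfl (fun q _ => sum_pick (fun i => g (Sum.inr (Sum.inl (i, q)))) w.1)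

theorem cl_s (x : Option (Fin 5) ⊕ I) :
    cl gr g (Sum.inl x) = tot g + ∑ y, if crs x y then g (Sum.inr y) else 0 := by
  rw [cl_eq, Fintype.sum_sum_type]
  exact congrArg₂ _ (sum_congr rfl (fun a _ => if_pos trivial))
    (sum_congr rfl (fun a _ => if_congr Iff.rfl rfl rfl))

theorem cl_y : cl gr g (Sum.inl (Sum.inl none)) = tot g := by
  rw [cl_s]; simp [crs]

end

theorem upper (g : W → ℕ) (h : IsMinDom gr 4 g) : ∑ v, g v ≤ 592 := by
  obtain ⟨h1, h2, h3⟩ := h
  have near : ∀ v, 0 < g v → ∃ u, nb v u ∧ cl gr g u = 4 := fun v hv => by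
    obtain ⟨u, hu, e⟩ := h3 v hv
    exact ⟨u, hu.elim (fun h => h ▸ nb_refl u) (fun h => h.2), e⟩
  have t4 : 4 ≤ tot g := cl_y g ▸ h2 _
  have hb : ∀ i, bb g i ≤ 4 := by
    intro i
    by_contra hc
    obtain ⟨q, -, hq⟩ := exists_ne_zero_of_sum_ne_zero (s := univ)
      (f := fun q : Fin 10 × Fin 30 => g (Sum.inr (Sum.inl (i, q)))) (by change bb g i ≠ 0; omega)
    obtain ⟨x | j | w, hu, e⟩ := near _ (Nat.pos_of_ne_zero hq)
    · rw [cl_s] at e
      have := single_le_sum (f := fun y => if crs x y then g (Sum.inr y) else 0)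
        (fun _ _ => Nat.zero_le _) (mem_univ (Sum.inl (i, q)))
      have hu' : crs x (Sum.inl (i, q)) := hu
      simp only [if_pos hu'] at this
      omega
    · rw [cl_l] at e
      cases i <;> omega
    · rw [cl_w] at e
      have hu' : w.1 = i := hu
      rw [hu'] at e
      omega
  let c : Fin 5 → ℕ := fun a => g (Sum.inl (Sum.inl (some a)))
  have hlo : ∀ i, lo (c 0) (c 1) (c 2) (c 3) (c 4) (bb g i) ≤ ss g i := by
    intro i
    have : ∑ p, (4 - (cc g p + bb g i)) ≤ ss g i := sum_le_sum (fun p _ => by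
      have := h2 (Sum.inr (Sum.inr (i, p)))
      rw [cl_w] at this
      simp only at this
      omega)
    refine le_trans (le_of_eq ?_) this
    simp [Fin.sum_univ_succ, cc, inP, lo, c, add_assoc]
  have hup : ∀ t, ∑ p, (4 - (cp g p + t)) = up (c 0) (c 1) (c 2) (c 3) (c 4) t := by
    intro t
    simp [Fin.sum_univ_succ, cp, inP, up, c, add_assoc]
  have hk := key _ (Nat.lt_succ_of_le (h1 _ : c 0 ≤ 4)) _ (Nat.lt_succ_of_le (h1 _ : c 1 ≤ 4))
    _ (Nat.lt_succ_of_le (h1 _ : c 2 ≤ 4)) _ (Nat.lt_succ_of_le (h1 _ : c 3 ≤ 4))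
    _ (Nat.lt_succ_of_le (h1 _ : c 4 ≤ 4)) _ (Nat.lt_succ_of_le (hb true))
    _ (Nat.lt_succ_of_le (hb false))
  rw [← hup, ← hup] at hk
  have leaf : ∑ j : I, g (Sum.inl (Sum.inr j)) ≤ 480 := by
    by_cases ht : tot g = 4
    · rw [tot, Fintype.sum_sum_type] at ht
      omega
    have : ∀ j : I, g (Sum.inl (Sum.inr j)) ≤ 4 - (cp g j.2.1 +
        (bb g true + bb g false + lo (c 0) (c 1) (c 2) (c 3) (c 4) (bb g j.1))) := by
      intro j
      rcases Nat.eq_zero_or_pos (g (Sum.inl (Sum.inr j))) with h | h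
      · omega
      obtain ⟨x | j' | w, hu, e⟩ := near _ h
      · rw [cl_s] at e
        omega
      · have hu' : j = j' := hu
        rw [← hu', cl_l] at e
        have := hlo j.1
        omega
      · exact hu.elim
    refine (sum_le_sum (fun j _ => this j)).trans ?_
    rw [Fintype.sum_prod_type, Fintype.sum_bool, Fintype.sum_prod_type, Fintype.sum_prod_type]
    simp only [sum_const, card_univ, Fintype.card_fin, smul_eq_mul, ← mul_sum, c]
    omega
  have a1 : ∑ x : Option (Fin 5), g (Sum.inl (Sum.inl x)) ≤ 24 :=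
    (sum_le_card_nsmul _ _ 4 (fun _ _ => h1 _)).trans (by simp)
  have a2 : ∑ x : Bool × Fin 10, g (Sum.inr (Sum.inr x)) ≤ 80 :=
    (sum_le_card_nsmul _ _ 4 (fun _ _ => h1 _)).trans (by simp)
  have a3 : ∑ j : I, g (Sum.inr (Sum.inl j)) = bb g true + bb g false := by
    rw [Fintype.sum_prod_type, Fintype.sum_bool]; rfl
  have := hb true
  have := hb false
  rw [Fintype.sum_sum_type, Fintype.sum_sum_type, Fintype.sum_sum_type]
  omega

def g3 : W → ℕ
  | Sum.inl (Sum.inl none) => 0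
  | Sum.inl _ => 1
  | Sum.inr _ => 0

theorem g3_tot : tot g3 = 605 := by
  rw [tot, Fintype.sum_sum_type, Fintype.sum_option]
  simp [g3]

theorem g3_min : IsMinDom gr 3 g3 := by
  have a1 : ∀ j, cl gr g3 (Sum.inr (Sum.inl j)) = 3 := by
    intro j
    have : ∀ p, cp g3 p = 2 := by decide +kernel
    rw [cl_l, this]
    simp [g3, bb, ss]
  have a2 : ∀ w, cl gr g3 (Sum.inr (Sum.inr w)) = 3 := by
    intro w
    have : ∀ p, cc g3 p = 3 := by decide +kernel
    rw [cl_w, this]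
    simp [g3, bb]
  refine ⟨?_, ?_, ?_⟩
  · rintro (((_ | a) | j) | y) <;> simp [g3]
  · rintro (x | j | w)
    · rw [cl_s, g3_tot]; omega
    · exact (a1 j).ge
    · exact (a2 w).ge
  · rintro (((_ | a) | j) | y) h
    · exact absurd h (by simp [g3])
    · obtain ⟨p, hp⟩ : ∃ p, inP p a = false := by revert a; decide
      exact ⟨Sum.inr (Sum.inr (true, p)), Or.inr ⟨by simp, hp⟩, a2 _⟩
    · exact ⟨Sum.inr (Sum.inl j), Or.inr ⟨by simp, rfl⟩, a1 _⟩
    · exact absurd h (by simp [g3])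

theorem le_upper {V : Type} [Fintype V] {G : SimpleGraph V} {k : ℕ} {g : V → ℕ}
    (h : IsMinDom G k g) : ∑ v, g v ≤ upperDom G k := by
  refine le_csSup ⟨Fintype.card V * k, ?_⟩ ⟨g, h, rfl⟩
  rintro n ⟨g, hg, rfl⟩
  exact sum_le_card_nsmul _ _ k (fun v _ => hg.1 v)

theorem upper_le {V : Type} [Fintype V] {G : SimpleGraph V} {k m : ℕ}
    (h : ∀ g, IsMinDom G k g → ∑ v, g v ≤ m) : upperDom G k ≤ m :=
  csSup_le' (by rintro n ⟨g, hg, rfl⟩; exact h g hg)

/-- There is a finite graph whose upper 4-domination number is smaller than its upper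
3-domination number. -/
theorem result : ∃ (V : Type) (_ : Fintype V) (_ : Nonempty V) (G : SimpleGraph V),
    upperDom G 4 < upperDom G 3 := by
  refine ⟨W, inferInstance, inferInstance, gr, ?_⟩
  have a := upper_le upper
  have b := le_upper g3_min
  have c := g3_tot
  rw [Fintype.sum_sum_type] at b
  unfold tot at c
  omega

end Pool.Agent.Results.MP_92077f_co.Drop
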